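import Pool.Agent.Y990.OA.Stm3

set_option autoImplicit false

open MeasureTheory Set

/-!
Project OA: almost surely every large box contains holes of polynomial size (Borel-Cantelli).
(helper492)
-/

namespace Pool.Agent.Y492.OA

open Pool.Agent.Y990.CB
open Pool.Agent.Y990.OA

noncomputable section

variable {d : ℕ}

/-- all boxes of the size given by `k` inside the box of radius `n` are crossed -/
def Bad (M : Mod d) (A n k : ℕ) : Set (M.ι → Bool) :=
  {ω | (k + 2) ^ (4 * A) ≤ n ∧ ∀ z ∈ Bo (0 : Z d) n,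
    ω ∈ Lk M (Bo z ((k + 2) ^ A)) (Bo z k) (Fr z ((k + 2) ^ A))}

theorem rw0_mem (i : Fin d) {m j n : ℕ} (hj : j < n / (2 * m + 1) + 1) :
    rw0 i m j ∈ Bo (0 : Z d) n := by
  intro i'
  have h1 : j * (2 * m + 1) ≤ n := by
    have h2 : j ≤ n / (2 * m + 1) := by omega
    exact (Nat.mul_le_mul_right _ h2).trans (Nat.div_mul_le_self _ _)
  have h1' : ((j * (2 * m + 1) : ℕ) : ℤ) ≤ (n : ℤ) := by exact_mod_cast h1
  unfold rw0
  by_cases hi : i' = i
  · subst hi
    rw [Pi.single_eq_same]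
    simp only [Pi.zero_apply, sub_zero]
    rw [abs_of_nonneg (by positivity)]
    exact h1'
  · rw [Pi.single_eq_of_ne hi]
    simp

theorem bad_le (h : S_row) (M : Mod d) (p : unitInterval) {A : ℕ} {c : ℝ} (hd : 1 ≤ d)
    (hc : 0 < c) (hhol : ∀ k n : ℕ, (k + 2) ^ A ≤ n → c / n ≤ hol M p k n)
    (n k : ℕ) (hn : 1 ≤ n) :
    (mu M p).real (Bad M A n k) ≤ Real.exp (-((c / 3) * √(n : ℝ))) := by
  by_cases hk : (k + 2) ^ (4 * A) ≤ n
  · set m := (k + 2) ^ A with hm
    set J := n / (2 * m + 1) + 1 with hJ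
    have hm1 : 1 ≤ m := Nat.one_le_pow _ _ (by omega)
    have hmn : m ^ 4 ≤ n := by
      rw [hm, ← pow_mul, mul_comm]
      exact hk
    have h1 : (mu M p).real (Bad M A n k) ≤ (1 - hol M p k m) ^ J := by
      refine le_trans (measureReal_mono ?_ (measure_ne_top _ _)) (h d M p ⟨0, hd⟩ k m J)
      rintro ω ⟨_, hω⟩ j hj
      exact hω _ (rw0_mem _ hj)
    have hm1R : (1 : ℝ) ≤ m := by exact_mod_cast hm1
    have hol1 : hol M p k m ≤ 1 := measureReal_le_one
    have h2 : 1 - hol M p k m ≤ Real.exp (-(c / m)) := by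
      have h3 := hhol k m le_rfl
      have h4 := Real.add_one_le_exp (-(c / m))
      linarith
    have h3 : (1 - hol M p k m) ^ J ≤ Real.exp (-(c / m)) ^ J :=
      pow_le_pow_left₀ (by linarith) h2 J
    rw [← Real.exp_nat_mul] at h3
    refine h1.trans (h3.trans (Real.exp_le_exp.2 ?_))
    -- the exponent
    have hJ1 : (n : ℝ) ≤ J * (2 * m + 1) := by
      have : n ≤ J * (2 * m + 1) := by
        rw [hJ]
        have := Nat.lt_div_mul_add (a := n) (b := 2 * m + 1) (by omega)
        nlinarith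
      exact_mod_cast this
    have hJ0 : (0 : ℝ) ≤ J := Nat.cast_nonneg _
    have hs : (m : ℝ) ^ 2 ≤ √(n : ℝ) := by
      apply Real.le_sqrt_of_sq_le
      rw [← pow_mul]
      exact_mod_cast hmn
    have hsn : √(n : ℝ) * √(n : ℝ) = n := Real.mul_self_sqrt (Nat.cast_nonneg _)
    have hs0 : 0 < √(n : ℝ) := Real.sqrt_pos.2 (by exact_mod_cast hn)
    have h5 : √(n : ℝ) * m ≤ 3 * J := by
      -- `n ≤ 3 J m`
      have h6 : (n : ℝ) ≤ 3 * J * m := by nlinarith
      -- `n * m ≤ 3 J m ^ 2 ≤ 3 J √n`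
      have h7 : √(n : ℝ) * (√(n : ℝ) * m) ≤ √(n : ℝ) * (3 * J) := by
        calc √(n : ℝ) * (√(n : ℝ) * m) = n * m := by rw [← mul_assoc, hsn]
          _ ≤ (3 * J * m) * m := by gcongr
          _ = (3 * J) * m ^ 2 := by ring
          _ ≤ (3 * J) * √(n : ℝ) := by gcongr
          _ = _ := by ring
      exact le_of_mul_le_mul_left h7 hs0
    have h8 : c / 3 * √(n : ℝ) ≤ J * (c / m) := by
      rw [mul_div_assoc', le_div_iff₀ (by positivity)]
      nlinarith
    linarith
  · have : Bad M A n k = ∅ := by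
      ext ω
      simp [Bad, hk]
    rw [this]
    simp only [measureReal_empty]
    exact (Real.exp_pos _).le

theorem asu (h : S_row) : S_asu := by
  intro d M p A c hd hA hc hhol
  set Bd : ℕ → Set (M.ι → Bool) := fun n => ⋃ k ∈ Finset.range (n + 1), Bad M A n k with hBd
  set C : ℝ := 1440 / (c / 3) ^ 6 with hC
  have hC0 : 0 ≤ C := by positivity
  have hB : ∀ n : ℕ, (mu M p).real (Bd n) ≤ C * (1 / (n : ℝ) ^ 2) := by
    intro n
    rcases Nat.eq_zero_or_pos n with hn | hn
    · subst hn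
      have : Bd 0 = ∅ := by
        rw [hBd]
        ext ω
        simp [Bad]
      rw [this]
      simp
    · have hn1 : (1 : ℝ) ≤ n := by exact_mod_cast hn
      have hs0 : 0 < √(n : ℝ) := Real.sqrt_pos.2 (by linarith)
      have h1 : (mu M p).real (Bd n) ≤ (n + 1) * Real.exp (-((c / 3) * √(n : ℝ))) := by
        refine (measureReal_biUnion_finset_le _ _).trans ?_
        refine (Finset.sum_le_sum fun k _ => bad_le h M p hd hc hhol n k hn).trans ?_
        rw [Finset.sum_const, Finset.card_range, nsmul_eq_mul]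
        push_cast
        exact le_rfl
      refine h1.trans ?_
      have hx : 0 < (c / 3) * √(n : ℝ) := by positivity
      have h2 := Real.pow_div_factorial_le_exp _ hx.le 6
      have h3 : ((c / 3) * √(n : ℝ)) ^ 6 = (c / 3) ^ 6 * (n : ℝ) ^ 3 := by
        rw [mul_pow]
        congr 1
        calc √(n : ℝ) ^ 6 = (√(n : ℝ) ^ 2) ^ 3 := by ring
          _ = _ := by rw [Real.sq_sqrt (by linarith)]
      rw [h3] at h2
      have h6 : ((Nat.factorial 6 : ℕ) : ℝ) = 720 := by norm_num [Nat.factorial]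
      rw [h6] at h2
      rw [Real.exp_neg, hC, ← div_eq_mul_inv, div_le_iff₀ (Real.exp_pos _)]
      calc (n : ℝ) + 1 ≤ 1440 / (c / 3) ^ 6 * (1 / (n : ℝ) ^ 2) *
            ((c / 3) ^ 6 * (n : ℝ) ^ 3 / 720) := by
            have : 1440 / (c / 3) ^ 6 * (1 / (n : ℝ) ^ 2) *
              ((c / 3) ^ 6 * (n : ℝ) ^ 3 / 720) = 2 * n := by
              field_simp
              norm_num
            rw [this]
            linarith
        _ ≤ _ := by gcongr
  have hsum : Summable fun n : ℕ => (mu M p).real (Bd n) := by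
    refine Summable.of_nonneg_of_le (fun n => measureReal_nonneg) hB ?_
    exact (Real.summable_one_div_nat_pow.2 (by norm_num)).mul_left C
  have hne : (∑' n, (mu M p) (Bd n)) ≠ ⊤ := by
    have h1 := hsum.tsum_ofReal_ne_top
    have h2 : (fun n => ENNReal.ofReal ((mu M p).real (Bd n))) = fun n => (mu M p) (Bd n) := by
      funext n
      exact ENNReal.ofReal_toReal (measure_ne_top _ _)
    rw [h2] at h1
    exact h1
  filter_upwards [ae_eventually_notMem hne] with ω hω
  obtain ⟨n0, hn0⟩ := Filter.eventually_atTop.1 hω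
  refine ⟨n0, fun n hn k hk => ?_⟩
  by_contra hcon
  push Not at hcon
  refine hn0 n hn ?_
  rw [hBd]
  simp only [Set.mem_iUnion, Finset.mem_range]
  refine ⟨k, ?_, hk, hcon⟩
  have h1 : (k + 2) ^ 1 ≤ (k + 2) ^ (4 * A) := Nat.pow_le_pow_right (by omega) (by omega)
  rw [pow_one] at h1
  omega

end

end Pool.Agent.Y492.OA
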